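import Mathlib

set_option autoImplicit false

namespace Pool.Agent.TH793.ST

open Finset Matrix

variable {n : ℕ}

/-- partial products. -/
def P (A : ℕ → Matrix (Fin n) (Fin n) ℕ) : ℕ → Matrix (Fin n) (Fin n) ℕ
  | 0 => 1
  | i + 1 => P A i * A i

/-- admissible matrices. -/
structure Adm (B : Matrix (Fin n) (Fin n) ℕ) (r : ℕ) : Prop where
  h01 : ∀ i j, B i j = 0 ∨ B i j = 1
  diag : ∀ i, B i i = 1
  ori : ∀ i j, i ≠ j → B i j = 1 → B j i ≠ 1
  row : ∀ i, r + 1 ≤ ∑ j, B i j

/-- out-neighbours. -/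
def N (B : Matrix (Fin n) (Fin n) ℕ) (w : Fin n) : Finset (Fin n) :=
  univ.filter fun y => y ≠ w ∧ B w y = 1

theorem mem_N {B : Matrix (Fin n) (Fin n) ℕ} {w y : Fin n} : y ∈ N B w ↔ y ≠ w ∧ B w y = 1 := by
  simp [N]

theorem card_N {B : Matrix (Fin n) (Fin n) ℕ} {r : ℕ} (h : Adm B r) (w : Fin n) :
    r ≤ (N B w).card := by
  have h1 := h.row w
  rw [← Finset.add_sum_erase univ (B w) (mem_univ w), h.diag] at h1
  have h2 : ∑ j ∈ univ.erase w, B w j = (N B w).card := by
    have h3 : N B w = (univ.erase w).filter (fun y => B w y = 1) := by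
      ext y
      simp [N]
    rw [h3, card_filter]
    refine sum_congr rfl fun j _ => ?_
    rcases h.h01 w j with h4 | h4
    · rw [h4]; simp
    · rw [h4]; simp
  omega

/-- tokens. -/
def Q (A : ℕ → Matrix (Fin n) (Fin n) ℕ) (i : ℕ) (w : Fin n) : Finset (Fin n) :=
  univ.filter fun x => 0 < P A i x w

theorem mem_Q {A : ℕ → Matrix (Fin n) (Fin n) ℕ} {i : ℕ} {w x : Fin n} :
    x ∈ Q A i w ↔ 0 < P A i x w := by
  simp [Q]

theorem P_succ (A : ℕ → Matrix (Fin n) (Fin n) ℕ) (i : ℕ) (x y : Fin n) :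
    P A (i + 1) x y = ∑ w, P A i x w * A i w y := by
  show (P A i * A i) x y = _
  rw [mul_apply]

theorem le_step (A : ℕ → Matrix (Fin n) (Fin n) ℕ) {i : ℕ} {x w y : Fin n} (h2 : A i w y = 1) :
    P A i x w ≤ P A (i + 1) x y := by
  have h : P A i x w * A i w y ≤ ∑ w, P A i x w * A i w y :=
    single_le_sum (f := fun w => P A i x w * A i w y) (fun _ _ => Nat.zero_le _) (mem_univ w)
  rw [h2, mul_one] at h
  rw [P_succ]
  exact h

theorem bad_step (A : ℕ → Matrix (Fin n) (Fin n) ℕ) {i : ℕ} {x w : Fin n} (hxw : w ≠ x)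
    (h0 : A i x x = 1) (h1 : 1 ≤ P A i x x) (h2 : A i w x = 1) (h3 : 0 < P A i x w) :
    2 ≤ P A (i + 1) x x := by
  have h : ∑ v ∈ {x, w}, P A i x v * A i v x ≤ ∑ v, P A i x v * A i v x :=
    sum_le_sum_of_subset (subset_univ _)
  rw [sum_pair hxw.symm, h0, h2, mul_one, mul_one] at h
  rw [P_succ]
  omega

section

variable {A : ℕ → Matrix (Fin n) (Fin n) ℕ} {r : ℕ → ℕ} {T : ℕ}

theorem diag_pos (hA : ∀ i < T, Adm (A i) (r i)) (i : ℕ) (hi : i ≤ T) (x : Fin n) :
    1 ≤ P A i x x := by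
  induction i with
  | zero => simp [P]
  | succ i ih => exact (ih (by omega)).trans (le_step A ((hA i (by omega)).diag x))

theorem diag_mono (hA : ∀ i < T, Adm (A i) (r i)) (x : Fin n) (i j : ℕ) (hij : i ≤ j)
    (hj : j ≤ T) : P A i x x ≤ P A j x x := by
  induction j, hij using Nat.le_induction with
  | base => exact le_rfl
  | succ j _ ih => exact (ih (by omega)).trans (le_step A ((hA j (by omega)).diag x))

theorem noRet (hA : ∀ i < T, Adm (A i) (r i)) (hno : ∀ x, P A T x x < 2) {i : ℕ} (hi : i < T)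
    {w y : Fin n} (hy : y ∈ N (A i) w) : y ∉ Q A i w := by
  intro h
  rw [mem_Q] at h
  rw [mem_N] at hy
  have h1 := bad_step A (x := y) (w := w) (i := i) (Ne.symm hy.1) ((hA i hi).diag y)
    (diag_pos hA i (by omega) y) hy.2 h
  have h2 := diag_mono hA y (i + 1) T (by omega) le_rfl
  have h3 := hno y
  omega

theorem self_mem (hA : ∀ i < T, Adm (A i) (r i)) {i : ℕ} (hi : i ≤ T) (w : Fin n) :
    w ∈ Q A i w := mem_Q.2 (diag_pos hA i hi w)

theorem sub_self (hA : ∀ i < T, Adm (A i) (r i)) {i : ℕ} (hi : i < T) (w : Fin n) :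
    Q A i w ⊆ Q A (i + 1) w := by
  intro x hx
  rw [mem_Q] at hx ⊢
  exact lt_of_lt_of_le hx (le_step A ((hA i hi).diag w))

theorem sub_step {i : ℕ} {w y : Fin n} (hy : y ∈ N (A i) w) : Q A i w ⊆ Q A (i + 1) y := by
  intro x hx
  rw [mem_Q] at hx ⊢
  exact lt_of_lt_of_le hx (le_step A (mem_N.1 hy).2)

theorem grow (hA : ∀ i < T, Adm (A i) (r i)) (hno : ∀ x, P A T x x < 2) {i : ℕ} (hi : i < T)
    {m : ℕ} (h : ∃ w, m ≤ (Q A i w).card) : ∃ w, m + min 1 (r i) ≤ (Q A (i + 1) w).card := by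
  obtain ⟨w, hw⟩ := h
  rcases Nat.eq_zero_or_pos (r i) with h0 | h0
  · refine ⟨w, ?_⟩
    rw [h0]
    exact hw.trans (card_le_card (sub_self hA hi w))
  · have h1 : 0 < (N (A i) w).card := lt_of_lt_of_le h0 (card_N (hA i hi) w)
    obtain ⟨y, hy⟩ := card_pos.1 h1
    refine ⟨y, ?_⟩
    have h2 : insert y (Q A i w) ⊆ Q A (i + 1) y := by
      intro x hx
      rcases mem_insert.1 hx with rfl | hx
      · exact self_mem hA (by omega) x
      · exact sub_step hy hx
    have h3 := card_le_card h2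
    rw [card_insert_of_notMem (noRet hA hno hi hy)] at h3
    have : min 1 (r i) ≤ 1 := min_le_left _ _
    omega

theorem first (hn : 0 < n) (hA : ∀ i < T, Adm (A i) (r i)) (hT : 0 < T) :
    ∃ w, 1 + r 0 ≤ (Q A 1 w).card := by
  by_contra hcon
  push Not at hcon
  have h0 := hA 0 hT
  -- double counting of the arcs of `A 0`
  have h1 : ∑ w : Fin n, (N (A 0) w).card =
      ∑ y : Fin n, (univ.filter fun w => y ≠ w ∧ A 0 w y = 1).card := by
    simp only [N, card_filter]
    rw [sum_comm]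
  have h2 : ∀ y : Fin n, (univ.filter fun w => y ≠ w ∧ A 0 w y = 1).card + 1 ≤
      (Q A 1 y).card := by
    intro y
    have h3 : insert y (univ.filter fun w => y ≠ w ∧ A 0 w y = 1) ⊆ Q A 1 y := by
      intro x hx
      rcases mem_insert.1 hx with rfl | hx
      · exact self_mem hA (by omega) x
      · rw [mem_filter] at hx
        rw [mem_Q]
        have h4 : P A 0 x x ≤ P A 1 x y := le_step A (i := 0) (x := x) (w := x) (y := y) hx.2.2
        have h5 : P A 0 x x = 1 := by simp [P]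
        omega
    have h4 := card_le_card h3
    rwa [card_insert_of_notMem (by simp)] at h4
  have h3 : ∑ w : Fin n, r 0 ≤ ∑ w : Fin n, (N (A 0) w).card :=
    sum_le_sum fun w _ => card_N h0 w
  have h4 : ∑ y : Fin n, ((univ.filter fun w => y ≠ w ∧ A 0 w y = 1).card) <
      ∑ y : Fin n, r 0 := by
    have : Nonempty (Fin n) := ⟨⟨0, hn⟩⟩
    refine sum_lt_sum_of_nonempty univ_nonempty fun y _ => ?_
    have := h2 y
    have := hcon y
    omega
  omega

/-- In an oriented graph some vertex of `X` has at most `(|X| - 1)/2` out-neighbours in `X`. -/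
theorem exists_small {B : Matrix (Fin n) (Fin n) ℕ} {s : ℕ} (h : Adm B s) (X : Finset (Fin n))
    (hX : X.Nonempty) : ∃ x ∈ X, 2 * (N B x ∩ X).card + 1 ≤ X.card := by
  by_contra hcon
  push Not at hcon
  have h1 : ∑ x ∈ X, X.card < ∑ x ∈ X, (2 * (N B x ∩ X).card + 1) :=
    sum_lt_sum_of_nonempty hX fun x hx => hcon x hx
  rw [sum_add_distrib, ← mul_sum] at h1
  have h2 : ∑ x ∈ X, (N B x ∩ X).card = ∑ x ∈ X, ∑ y ∈ X, if (y ≠ x ∧ B x y = 1) then 1 else 0 := by
    refine sum_congr rfl fun x _ => ?_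
    have : N B x ∩ X = X.filter (fun y => y ≠ x ∧ B x y = 1) := by
      ext y
      simp [N, and_comm]
    rw [this, card_filter]
  have h3 : ∑ x ∈ X, (N B x ∩ X).card = ∑ x ∈ X, ∑ y ∈ X, if (x ≠ y ∧ B y x = 1) then 1 else 0 := by
    rw [h2, sum_comm]
  have h4 : 2 * ∑ x ∈ X, (N B x ∩ X).card ≤ ∑ x ∈ X, ∑ y ∈ X, if y ≠ x then 1 else 0 := by
    rw [two_mul]
    conv_lhs =>
      congr
      · rw [h2]
      · rw [h3]
    rw [← sum_add_distrib]
    refine sum_le_sum fun x _ => ?_
    rw [← sum_add_distrib]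
    refine sum_le_sum fun y _ => ?_
    by_cases hxy : y = x
    · subst hxy; simp
    · have hyx : x ≠ y := fun e => hxy e.symm
      rw [if_pos hxy]
      have := h.ori x y hyx
      by_cases hb : B x y = 1
      · have h5 := this hb
        simp [hb, h5, hxy]
      · simp [hb]
        split_ifs <;> omega
  have h5 : ∀ x ∈ X, (∑ y ∈ X, if y ≠ x then 1 else 0) = X.card - 1 := by
    intro x hx
    rw [← card_filter, filter_ne', card_erase_of_mem hx]
  rw [sum_congr rfl h5] at h4
  simp only [sum_const, smul_eq_mul] at h1 h4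
  have h6 : 0 < X.card := card_pos.2 hX
  have h7 : X.card * (X.card - 1) + X.card * 1 = X.card * X.card := by
    rw [← mul_add]
    congr 1
    omega
  omega

theorem core {t : ℕ} (hn : 0 < n) (hA : ∀ i < t + 3, Adm (A i) (r i))
    (hineq : 2 * n ≤ 2 * r 0 + 2 * (∑ i ∈ range t, min 1 (r (i + 1))) + r (t + 1) +
      2 * min 1 (r (t + 1)) + 2 * r (t + 2)) : ∃ x, 2 ≤ P A (t + 3) x x := by
  by_contra hcon
  push Not at hcon
  have hb : ∀ j ≤ t, ∃ w, 1 + r 0 + ∑ i ∈ range j, min 1 (r (i + 1)) ≤ (Q A (j + 1) w).card := by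
    intro j
    induction j with
    | zero => intro _; simpa using first hn hA (by omega)
    | succ j ih =>
      intro hj
      obtain ⟨w, hw⟩ := grow hA hcon (i := j + 1) (by omega) (ih (by omega))
      refine ⟨w, ?_⟩
      rw [sum_range_succ]
      omega
  obtain ⟨w, hw⟩ := hb t le_rfl
  set X := N (A (t + 1)) w with hX
  have hXc : r (t + 1) ≤ X.card := card_N (hA _ (by omega)) w
  have hlast : ∀ x, (Q A (t + 2) x).card + r (t + 2) ≤ n := by
    intro x
    have h1 : Disjoint (Q A (t + 2) x) (N (A (t + 2)) x) := by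
      rw [disjoint_right]
      intro y hy
      exact noRet hA hcon (by omega) hy
    have h2 := card_union_of_disjoint h1
    have h3 := card_le_univ (Q A (t + 2) x ∪ N (A (t + 2)) x)
    rw [Fintype.card_fin] at h3
    have h4 := card_N (hA (t + 2) (by omega)) x
    omega
  rcases X.eq_empty_or_nonempty with h0 | h0
  · rw [h0, card_empty] at hXc
    have h1 := hlast w
    have h2 := card_le_card (sub_self hA (i := t + 1) (by omega) w)
    have h3 : r (t + 1) = 0 := by omega
    have h2' : (Q A (t + 1) w).card ≤ (Q A (t + 2) w).card := h2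
    omega
  · obtain ⟨x, hx, hx2⟩ := exists_small (hA (t + 2) (by omega)) X h0
    have hd1 : Disjoint (Q A (t + 1) w) X := by
      rw [disjoint_right]
      intro y hy
      exact noRet hA hcon (by omega) hy
    have hd2 : Disjoint (Q A (t + 1) w ∪ X) (N (A (t + 2)) x \ X) := by
      rw [disjoint_right]
      intro y hy
      rw [mem_sdiff] at hy
      rw [mem_union, not_or]
      refine ⟨fun h => ?_, hy.2⟩
      exact noRet hA hcon (by omega) hy.1 (sub_step hx h)
    have h1 := card_union_of_disjoint hd2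
    rw [card_union_of_disjoint hd1] at h1
    have h3 := card_le_univ (Q A (t + 1) w ∪ X ∪ N (A (t + 2)) x \ X)
    rw [Fintype.card_fin] at h3
    have h4 := card_N (hA (t + 2) (by omega)) x
    have h5 : (N (A (t + 2)) x \ X).card + (N (A (t + 2)) x ∩ X).card = (N (A (t + 2)) x).card :=
      card_sdiff_add_card_inter _ _
    omega

/-- From an entry `≥ 2` on the diagonal to the trace. -/
theorem trace_gt (hA : ∀ i < T, Adm (A i) (r i)) (h : ∃ x, 2 ≤ P A T x x) :
    n < Matrix.trace (P A T) := by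
  obtain ⟨x, hx⟩ := h
  have h1 : ∑ _y : Fin n, 1 < ∑ y : Fin n, P A T y y :=
    sum_lt_sum (fun y _ => diag_pos hA T le_rfl y) ⟨x, mem_univ x, by omega⟩
  simpa [Matrix.trace] using h1

end

/-- extension of a finite sequence. -/
def ext {M : Type*} [One M] {T : ℕ} (A : Fin T → M) (i : ℕ) : M :=
  if h : i < T then A ⟨i, h⟩ else 1

theorem P_congr (A B : ℕ → Matrix (Fin n) (Fin n) ℕ) (T : ℕ) (h : ∀ i < T, A i = B i) :
    P A T = P B T := by
  induction T with
  | zero => rfl
  | succ T ih =>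
    show P A T * A T = P B T * B T
    rw [ih fun i hi => h i (by omega), h T (by omega)]

theorem prod_ofFn {T : ℕ} (A : Fin T → Matrix (Fin n) (Fin n) ℕ) :
    (List.ofFn A).prod = P (ext A) T := by
  induction T with
  | zero => simp [P]
  | succ T ih =>
    rw [List.ofFn_succ', List.prod_concat, ih]
    show _ = P (ext A) T * ext A T
    have h1 : ext A T = A (Fin.last T) := by
      simp [ext, Fin.last]
    rw [h1]
    congr 1
    refine P_congr _ _ _ fun i hi => ?_
    simp [ext, hi, Nat.lt_succ_of_lt hi]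

theorem rot_one {m : ℕ} (A : Fin (m + 1) → Matrix (Fin n) (Fin n) ℕ) :
    Matrix.trace (List.ofFn fun i => A (i + 1)).prod = Matrix.trace (List.ofFn A).prod := by
  rw [List.ofFn_succ', List.prod_concat, List.ofFn_succ, List.prod_cons, Matrix.trace_mul_comm]
  simp

theorem rot {m : ℕ} (A : Fin (m + 1) → Matrix (Fin n) (Fin n) ℕ) (c : Fin (m + 1)) :
    Matrix.trace (List.ofFn fun i => A (i + c)).prod = Matrix.trace (List.ofFn A).prod := by
  induction c using Fin.induction with
  | zero => simp only [add_zero]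
  | succ c ih =>
    rw [← ih, ← rot_one (fun i => A (i + c.castSucc))]
    congr 3
    funext i
    congr 1
    rw [← Fin.coeSucc_eq_succ, add_assoc, add_comm 1 c.castSucc]

theorem val_two (t : ℕ) : ((2 : Fin (t + 3)) : ℕ) = 2 := by
  rw [show (2 : Fin (t + 3)) = Fin.ofNat (t + 3) 2 from rfl]
  simp only [Fin.ofNat]
  exact Nat.mod_eq_of_lt (by omega)

theorem val_one (t : ℕ) : ((1 : Fin (t + 3)) : ℕ) = 1 := by
  rw [show (1 : Fin (t + 3)) = Fin.ofNat (t + 3) 1 from rfl]
  simp only [Fin.ofNat]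
  exact Nat.mod_eq_of_lt (by omega)

theorem sum3 {t : ℕ} (s : Fin (t + 3)) (f : Fin (t + 3) → ℕ) :
    ∑ i ∈ {s, s + 1, s + 2}, f i = f s + (f (s + 1) + f (s + 2)) := by
  have v1 := val_one t
  have v2 := val_two t
  have n1 : (1 : Fin (t + 3)) ≠ 0 := by
    intro h
    have := congrArg Fin.val h
    rw [v1] at this
    simp at this
  have n2 : (2 : Fin (t + 3)) ≠ 0 := by
    intro h
    have := congrArg Fin.val h
    rw [v2] at this
    simp at this
  have n3 : (2 : Fin (t + 3)) ≠ 1 := by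
    intro h
    have := congrArg Fin.val h
    rw [v1, v2] at this
    omega
  rw [sum_insert, sum_pair]
  · intro h
    exact n3 (add_left_cancel h).symm
  · rw [mem_insert, mem_singleton, not_or]
    exact ⟨fun h => n1 (left_eq_add.1 h), fun h => n2 (left_eq_add.1 h)⟩

/-- The main inequality, any three cyclically consecutive matrices `s`, `s + 1`, `s + 2`. -/
theorem main {t : ℕ} (hn : 0 < n) (A : Fin (t + 3) → Matrix (Fin n) (Fin n) ℕ)
    (r : Fin (t + 3) → ℕ) (hA : ∀ i, Adm (A i) (r i)) (s : Fin (t + 3))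
    (h : 2 * n ≤ r s + 2 * min 1 (r s) + 2 * r (s + 1) + 2 * r (s + 2) +
      2 * ∑ i ∈ univ \ {s, s + 1, s + 2}, min 1 (r i)) :
    n < Matrix.trace (List.ofFn A).prod := by
  set A' : Fin (t + 3) → Matrix (Fin n) (Fin n) ℕ := fun i => A (i + (s + 2)) with hA'
  set r' : Fin (t + 3) → ℕ := fun i => r (i + (s + 2)) with hr'
  have hrot := rot (m := t + 2) A (s + 2)
  rw [← hrot, prod_ofFn]
  have hext : ∀ i < t + 3, Adm (ext A' i) ((fun i => if h : i < t + 3 then r' ⟨i, h⟩ else 0) i) := by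
    intro i hi
    simp only [ext, dif_pos hi]
    exact hA _
  refine trace_gt hext (core hn hext ?_)
  set R : ℕ → ℕ := fun i => if h : i < t + 3 then r' ⟨i, h⟩ else 0 with hR
  have v1 := val_one t
  have v2 := val_two t
  have R0 : R 0 = r (s + 2) := by
    simp only [hR, dif_pos (show 0 < t + 3 by omega), hr']
    congr 1
    exact zero_add _
  have R1 : R (t + 1) = r s := by
    simp only [hR, dif_pos (show t + 1 < t + 3 by omega), hr']
    congr 1
    have h2 : (⟨t + 1, by omega⟩ : Fin (t + 3)) + 2 = 0 := by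
      apply Fin.ext
      rw [Fin.val_add, v2]
      show (t + 1 + 2) % (t + 3) = 0
      exact Nat.mod_self _
    rw [add_comm s 2, ← add_assoc, h2, zero_add]
  have R2 : R (t + 2) = r (s + 1) := by
    simp only [hR, dif_pos (show t + 2 < t + 3 by omega), hr']
    congr 1
    have h2 : (⟨t + 2, by omega⟩ : Fin (t + 3)) + 2 = 1 := by
      apply Fin.ext
      rw [Fin.val_add, v2, v1]
      show (t + 2 + 2) % (t + 3) = 1
      rw [show t + 2 + 2 = 1 + (t + 3) by omega, Nat.add_mod_right]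
      exact Nat.mod_eq_of_lt (by omega)
    rw [add_comm s 2, ← add_assoc, h2]
    exact add_comm 1 s
  have e1 : ∑ i : Fin (t + 3), min 1 (r i) = ∑ i : Fin (t + 3), min 1 (R i) := by
    have e2 : ∀ i : Fin (t + 3), R i = r (i + (s + 2)) := by
      intro i
      simp only [hR, dif_pos i.isLt, hr']
    calc ∑ i : Fin (t + 3), min 1 (r i) = ∑ i : Fin (t + 3), min 1 (r (i + (s + 2))) :=
          (Equiv.sum_comp (Equiv.addRight (s + 2)) fun i => min 1 (r i)).symm
      _ = ∑ i : Fin (t + 3), min 1 (R i) := sum_congr rfl fun i _ => by rw [e2 i]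
  rw [Fin.sum_univ_eq_sum_range (fun i => min 1 (R i)) (t + 3), sum_range_succ, sum_range_succ,
    sum_range_succ', R0, R1, R2] at e1
  have e3 : ∑ i ∈ {s, s + 1, s + 2}, min 1 (r i) =
      min 1 (r s) + (min 1 (r (s + 1)) + min 1 (r (s + 2))) := sum3 s _
  have e4 := sum_sdiff (f := fun i => min 1 (r i)) (subset_univ ({s, s + 1, s + 2} : Finset (Fin (t + 3))))
  rw [e3] at e4
  show 2 * n ≤ 2 * R 0 + 2 * (∑ i ∈ range t, min 1 (R (i + 1))) + R (t + 1) +
      2 * min 1 (R (t + 1)) + 2 * R (t + 2)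
  rw [R0, R1, R2]
  omega

/-- The conclusion of the question for three cyclically consecutive matrices. -/
theorem three {t : ℕ} (hn : 0 < n) (A : Fin (t + 3) → Matrix (Fin n) (Fin n) ℕ)
    (r : Fin (t + 3) → ℕ) (hA : ∀ i, Adm (A i) (r i)) (s : Fin (t + 3))
    (h1 : ∀ i, i ≠ s → i ≠ s + 1 → i ≠ s + 2 → r i ≤ 1) (h2 : r s ≤ 2) (hs : n ≤ ∑ i, r i) :
    n < Matrix.trace (List.ofFn A).prod := by
  refine main hn A r hA s ?_
  have e4 := sum_sdiff (f := fun i => r i) (subset_univ ({s, s + 1, s + 2} : Finset (Fin (t + 3))))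
  have e3 : ∑ i ∈ {s, s + 1, s + 2}, r i = r s + (r (s + 1) + r (s + 2)) := sum3 s r
  have e5 : ∑ i ∈ univ \ {s, s + 1, s + 2}, r i = ∑ i ∈ univ \ {s, s + 1, s + 2}, min 1 (r i) := by
    refine sum_congr rfl fun i hi => ?_
    rw [mem_sdiff, mem_insert, mem_insert, mem_singleton, not_or, not_or] at hi
    exact (min_eq_right (h1 i hi.2.1 hi.2.2.1 hi.2.2.2)).symm
  omega

end Pool.Agent.TH793.ST
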