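import Mathlib
import Pool.Agent.TH793.ST.Basic

set_option autoImplicit false

namespace Pool.Agent.TH793.ST

open Finset Matrix

variable {n : ℕ} {A : ℕ → Matrix (Fin n) (Fin n) ℕ} {r : ℕ → ℕ} {T : ℕ}

/-- vertices outside `S` that have received all tokens of `S` at time `i`. -/
def G (A : ℕ → Matrix (Fin n) (Fin n) ℕ) (S : Finset (Fin n)) (i : ℕ) : Finset (Fin n) :=
  univ.filter fun z => z ∉ S ∧ S ⊆ Q A i z

theorem mem_G {S : Finset (Fin n)} {i : ℕ} {z : Fin n} :
    z ∈ G A S i ↔ z ∉ S ∧ S ⊆ Q A i z := by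
  simp [G]

theorem Q_mono (hA : ∀ i < T, Adm (A i) (r i)) (w : Fin n) (i j : ℕ) (hij : i ≤ j)
    (hj : j ≤ T) : Q A i w ⊆ Q A j w := by
  induction j, hij using Nat.le_induction with
  | base => exact Subset.rfl
  | succ j _ ih => exact (ih (by omega)).trans (sub_self hA (by omega) w)

theorem G_step (hA : ∀ i < T, Adm (A i) (r i)) (hno : ∀ x, P A T x x < 2) {ρ : ℕ}
    (hρ : ∀ i < T, ρ ≤ r i) (hρ0 : 0 < ρ) {S : Finset (Fin n)} {i : ℕ} (hi : i < T)
    (hbd : ∀ y, 2 * (Q A (i + 1) y).card < 2 * S.card + ρ) :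
    2 * (G A S i).card ≤ (G A S (i + 1)).card := by
  have h1 : (G A S i).card * ρ ≤ ∑ z ∈ G A S i, (N (A i) z).card := by
    rw [← smul_eq_mul, ← sum_const]
    exact sum_le_sum fun z _ => (hρ i hi).trans (card_N (hA i hi) z)
  have hsub : ∀ z ∈ G A S i, N (A i) z ⊆ G A S (i + 1) := by
    intro z hz y hy
    rw [mem_G] at hz ⊢
    exact ⟨fun h => noRet hA hno hi hy (hz.2 h), hz.2.trans (sub_step hy)⟩
  have h2 : ∑ z ∈ G A S i, (N (A i) z).card =
      ∑ y ∈ G A S (i + 1), ((G A S i).filter fun z => y ∈ N (A i) z).card := by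
    have h3 : ∀ z ∈ G A S i, (N (A i) z).card =
        ∑ y ∈ G A S (i + 1), if y ∈ N (A i) z then 1 else 0 := by
      intro z hz
      rw [← card_filter]
      congr 1
      ext y
      rw [mem_filter]
      exact ⟨fun h => ⟨hsub z hz h, h⟩, fun h => h.2⟩
    rw [sum_congr rfl h3, sum_comm]
    simp only [card_filter]
  have h4 : ∀ y ∈ G A S (i + 1), 2 * ((G A S i).filter fun z => y ∈ N (A i) z).card ≤ ρ := by
    intro y hy
    rw [mem_G] at hy
    have h5 : S ∪ insert y ((G A S i).filter fun z => y ∈ N (A i) z) ⊆ Q A (i + 1) y := by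
      intro x hx
      rcases mem_union.1 hx with hx | hx
      · exact hy.2 hx
      · rcases mem_insert.1 hx with rfl | hx
        · exact self_mem hA (by omega) x
        · rw [mem_filter] at hx
          exact sub_step hx.2 (self_mem hA (by omega) x)
    have h6 := card_le_card h5
    have h7 : Disjoint S (insert y ((G A S i).filter fun z => y ∈ N (A i) z)) := by
      rw [disjoint_right]
      intro x hx
      rcases mem_insert.1 hx with rfl | hx
      · exact hy.1
      · rw [mem_filter, mem_G] at hx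
        exact hx.1.1
    rw [card_union_of_disjoint h7, card_insert_of_notMem (by simp [mem_N])] at h6
    have := hbd y
    omega
  have h8 : 2 * ∑ y ∈ G A S (i + 1), ((G A S i).filter fun z => y ∈ N (A i) z).card ≤
      (G A S (i + 1)).card * ρ := by
    rw [mul_sum, ← smul_eq_mul (a := (G A S (i + 1)).card), ← sum_const]
    exact sum_le_sum h4
  have h9 : (2 * (G A S i).card) * ρ ≤ (G A S (i + 1)).card * ρ := by
    rw [← h2] at h8
    nlinarith
  exact Nat.le_of_mul_le_mul_right h9 hρ0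

theorem phase (hA : ∀ i < T, Adm (A i) (r i)) (hno : ∀ x, P A T x x < 2) {ρ l : ℕ}
    (hρ : ∀ i < T, ρ ≤ r i) (hρ0 : 0 < ρ) (hl : n ≤ 2 ^ l * ρ) {i m : ℕ} (hi : i + l + 1 ≤ T)
    (h : ∃ w, m ≤ 2 * (Q A i w).card) : ∃ w, m + ρ ≤ 2 * (Q A (i + l + 1) w).card := by
  by_contra hcon
  push Not at hcon
  obtain ⟨w, hw⟩ := h
  set S := Q A i w with hS
  have hbd : ∀ j ≤ i + l + 1, ∀ y, 2 * (Q A j y).card < 2 * S.card + ρ := by
    intro j hj y
    have h1 := card_le_card (Q_mono hA y j (i + l + 1) hj hi)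
    have h2 := hcon y
    omega
  have h1 : ρ ≤ (G A S (i + 1)).card := by
    refine ((hρ i (by omega)).trans (card_N (hA i (by omega)) w)).trans (card_le_card ?_)
    intro y hy
    rw [mem_G]
    exact ⟨noRet hA hno (by omega) hy, sub_step hy⟩
  have h2 : ∀ j ≤ l, 2 ^ j * ρ ≤ (G A S (i + 1 + j)).card := by
    intro j
    induction j with
    | zero => intro _; simpa using h1
    | succ j ih =>
      intro hj
      have h3 := ih (by omega)
      have h4 := G_step hA hno hρ hρ0 (S := S) (i := i + 1 + j) (by omega)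
        (hbd (i + 1 + j + 1) (by omega))
      rw [pow_succ]
      calc 2 ^ j * 2 * ρ = 2 * (2 ^ j * ρ) := by ring
        _ ≤ 2 * (G A S (i + 1 + j)).card := by omega
        _ ≤ _ := h4
  have h3 := h2 l le_rfl
  have h4 : Disjoint S (G A S (i + 1 + l)) := by
    rw [disjoint_right]
    intro z hz
    exact (mem_G.1 hz).1
  have h5 := card_le_univ (S ∪ G A S (i + 1 + l))
  rw [card_union_of_disjoint h4, Fintype.card_fin] at h5
  have h6 : 0 < S.card := card_pos.2 ⟨w, self_mem hA (by omega) w⟩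
  omega

theorem coreLog (hn : 0 < n) (hA : ∀ i < T, Adm (A i) (r i)) {ρ l p : ℕ}
    (hρ : ∀ i < T, ρ ≤ r i) (hρ0 : 0 < ρ) (hl : n ≤ 2 ^ l * ρ) (hp : 2 * n ≤ ρ * (p + 2) + 1)
    (hT : p * (l + 1) + 1 ≤ T) : ∃ x, 2 ≤ P A T x x := by
  by_contra hcon
  push Not at hcon
  have hb : ∀ q ≤ p, ∃ w, 2 + ρ * q ≤ 2 * (Q A (q * (l + 1)) w).card := by
    intro q
    induction q with
    | zero =>
      intro _
      refine ⟨⟨0, hn⟩, ?_⟩
      have := card_pos.2 ⟨_, self_mem hA (i := 0 * (l + 1)) (by omega) ⟨0, hn⟩⟩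
      omega
    | succ q ih =>
      intro hq
      have hle : (q + 1) * (l + 1) ≤ p * (l + 1) := Nat.mul_le_mul_right _ hq
      have he : q * (l + 1) + l + 1 = (q + 1) * (l + 1) := by ring
      obtain ⟨w, hw⟩ := phase hA hcon hρ hρ0 hl (i := q * (l + 1)) (by omega) (ih (by omega))
      rw [he] at hw
      refine ⟨w, ?_⟩
      calc 2 + ρ * (q + 1) = 2 + ρ * q + ρ := by ring
        _ ≤ _ := hw
  obtain ⟨w, hw⟩ := hb p le_rfl
  have h1 : Disjoint (Q A (p * (l + 1)) w) (N (A (p * (l + 1))) w) := by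
    rw [disjoint_right]
    intro y hy
    exact noRet hA hcon (by omega) hy
  have h2 := card_le_univ (Q A (p * (l + 1)) w ∪ N (A (p * (l + 1))) w)
  rw [card_union_of_disjoint h1, Fintype.card_fin] at h2
  have h3 := (hρ (p * (l + 1)) (by omega)).trans (card_N (hA (p * (l + 1)) (by omega)) w)
  have h4 : ρ * (p + 2) = ρ * p + 2 * ρ := by ring
  omega

theorem log {t : ℕ} (hn : 0 < n) (A : Fin t → Matrix (Fin n) (Fin n) ℕ) {ρ l p : ℕ}
    (hA : ∀ i, Adm (A i) ρ) (hρ0 : 0 < ρ) (hl : n ≤ 2 ^ l * ρ) (hp : 2 * n ≤ ρ * (p + 2) + 1)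
    (ht : p * (l + 1) + 1 ≤ t) : n < Matrix.trace (List.ofFn A).prod := by
  rw [prod_ofFn]
  have hext : ∀ i < t, Adm (ext A i) ((fun _ => ρ) i) := by
    intro i hi
    simp only [ext, dif_pos hi]
    exact hA _
  exact trace_gt hext (coreLog hn hext (ρ := ρ) (fun _ _ => le_rfl) hρ0 hl hp ht)

end Pool.Agent.TH793.ST
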